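import Pool.Agent.K.MP_0d657e_an.C0
import Pool.Agent.K.MP_0d657e_an.C2
import Pool.Agent.P.MP_0d657e_an.Shear

open Pool.Agent.P.MP_0d657e_an

theorem Pool.Agent.Results.MP_0d657e_an.IsolatedAnnulus.result :
    ∃ (m : Metric) (w : ℝ × ℝ → ℝ) (ε : ℝ), 0 < ε ∧ m.IsSteadyVort w ∧
      ∀ w' : ℝ × ℝ → ℝ, m.IsSteadyVort w' → m.C1Small (fun p => w' p - w p) ε →
        ∃ c : ℝ, c ≠ 0 ∧ ∀ p ∈ Strip, w' p = c * w p :=
  isolated_of_pos partE

/-- Control: for the flat metric every shear flow is steady and its vorticity is not isolated. -/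
theorem Pool.Agent.Results.MP_0d657e_an.IsolatedAnnulus.flat_not_isolated :
    (∃ m : Metric, ∀ i j p, m.g i j p = if i = j then 1 else 0) ∧
    ∀ m : Metric, (∀ i j p, m.g i j p = if i = j then 1 else 0) → ∀ U w : ℝ × ℝ → ℝ,
      IsCk 2 U → (∀ p ∈ Strip, pd 0 U p = 0) → (∀ p, w p = -pd 1 U p) →
      m.IsSteadyVort w ∧ ∀ ε : ℝ, 0 < ε → ∃ w' : ℝ × ℝ → ℝ, m.IsSteadyVort w' ∧
        m.C1Small (fun p => w' p - w p) ε ∧ ¬ ∃ c : ℝ, ∀ p ∈ Strip, w' p = c * w p :=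
  ⟨Shear.exists_flat, fun _ hm _ _ => Shear.not_isolated hm⟩

/-- Control: for every metric, multiples of a steady vorticity are steady. -/
theorem Pool.Agent.Results.MP_0d657e_an.IsolatedAnnulus.multiples_steady (m : Metric)
    (w : ℝ × ℝ → ℝ) (h : m.IsSteadyVort w) (c : ℝ) : m.IsSteadyVort fun p => c * w p :=
  Shear.scale m h c

open Set Real in
/-- The isolated vorticity can be taken positive and strictly decreasing across the annulus. -/
theorem Pool.Agent.Results.MP_0d657e_an.IsolatedAnnulus.witness_not_constant :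
    ∃ (m : Metric) (w : ℝ × ℝ → ℝ) (ε : ℝ), 0 < ε ∧ m.IsSteadyVort w ∧
      (∀ p ∈ Strip, 0 < w p ∧ pd 0 w p = 0 ∧ pd 1 w p = -√5 * w p) ∧
      ∀ w' : ℝ × ℝ → ℝ, m.IsSteadyVort w' → m.C1Small (fun p => w' p - w p) ε →
        ∃ c : ℝ, c ≠ 0 ∧ ∀ p ∈ Strip, w' p = c * w p := by
  obtain ⟨Ds, hP⟩ := partE
  obtain ⟨F, C, κ0, η0, hκ, hη0, hF⟩ := Ds.family
  obtain ⟨η1, hη1, hD⟩ := partD Ds F C κ0 hP hκ
  have hη : 0 < min η0 η1 := lt_min hη0 hη1
  obtain ⟨G, hE, hS, ⟨ap⟩⟩ := hF _ ⟨half_pos hη, (half_lt_self hη).trans_le (min_le_left _ _)⟩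
  obtain ⟨hC, hA⟩ := hD _ ⟨half_pos hη, (half_lt_self hη).trans_le (min_le_right _ _)⟩ G hE ap
  obtain ⟨ε, hε, h⟩ := core hE hC hA
  have hm := Geo.diag hE hS
  set M := 1 + ‖G.gC‖ + ‖G.hC‖ with hM
  have hM1 : 1 ≤ M := by linarith [norm_nonneg G.gC, norm_nonneg G.hC]
  have hM0 : 0 < M := by linarith
  have hd0 := Sm_F0.isCk.of_top.diff
  refine ⟨Geo.met hE hS, un F0, ε / M, by positivity, Geo.base_steady hE hS,
    forall_Strip fun x t => ?_, fun w' hw hs => ?_⟩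
  · rw [(rep_un F0).pd0 hd0 Dx_F0, (rep_un F0).pd1 hd0 Dt_F0, rep_un]
    refine ⟨by simpa [F0] using mul_pos b_pos (exp_pos _), rfl, ?_⟩
    change _ = -b * _
    simp only [F0, F0t, ι_apply, D.neg_apply, D.smul_apply]
    linear_combination (om t) * b_sq
  obtain ⟨S, r⟩ := exists_sol hE hS hw
  have r' : Rep (fun p => w' p - un F0 p) (S.w - F0) := fun x t => by simp [r x t, rep_un _ x t]
  have hd : DifferentiableOn ℝ (fun p => w' p - un F0 p) Strip := hw.1.diff.sub hd0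
  have key : ∀ y z k : ℝ, 0 < k → k ≤ M → 0 ≤ z → √(y ^ 2 / k + z) ≤ ε / M → |y| ≤ ε := by
    intro y z k hk hkM hz h1
    rw [sqrt_le_left (by positivity)] at h1
    have h2 : y ^ 2 ≤ (ε / M) ^ 2 * k := (div_le_iff₀ hk).1 (by linarith)
    refine abs_le_of_sq_le_sq' (h2.trans ?_) hε.le |> abs_le.2
    rw [div_pow, div_mul_eq_mul_div, div_le_iff₀ (by positivity)]
    exact mul_le_mul_of_nonneg_left (by nlinarith) (by positivity)
  obtain ⟨c, hc, e⟩ := h S
    (C2_norm_le hε.le (fun x t => by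
      have := (hs _ (mem_Strip x t)).1
      rw [r' x t] at this
      exact this.trans (div_le_self hε.le hM1)))
    (C2_norm_le hε.le (fun x t => by
      have := (hs _ (mem_Strip x t)).2
      rw [hm.gradNorm, r'.pd0 hd (S.hwx.sub Dx_F0), sub_zero] at this
      exact key _ _ _ (hE.g_pos x t) (by
        linarith [le_abs_self (G.gC x t), C2_abs_le G.gC x t, norm_nonneg G.hC])
        (div_nonneg (sq_nonneg _) (hE.h_pos x t).le) this))
    (C2_norm_le hε.le (fun x t => by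
      have := (hs _ (mem_Strip x t)).2
      rw [hm.gradNorm, r'.pd1 hd (S.hwt.sub Dt_F0), add_comm] at this
      exact key _ _ _ (hE.h_pos x t) (by
        linarith [le_abs_self (G.hC x t), C2_abs_le G.hC x t, norm_nonneg G.gC])
        (div_nonneg (sq_nonneg _) (hE.g_pos x t).le) this))
  exact ⟨c, hc, forall_Strip (fun x t => by rw [r x t, e, rep_un]; simp)⟩
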